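import Pool.Agent.H88.MCR.Stmts

namespace Pool.MCR

/-- Members of the arcs of a chain lie on the chain. -/
lemma ahd_mem {L : Type} : ∀ (l : List L) (s t : Bool) (a b : L),
    (t, a, b) ∈ arcs s l → a ∈ l ∧ b ∈ l.tail
  | [], s, t, a, b, h => by simp [arcs] at h
  | [x], s, t, a, b, h => by simp [arcs] at h
  | x :: y :: l, s, t, a, b, h => by
    rw [arcs, List.mem_cons] at h
    rcases h with h | h
    · simp only [Prod.mk.injEq] at h
      obtain ⟨_, rfl, rfl⟩ := h
      simp
    · have := ahd_mem (y :: l) (!s) t a b h
      refine ⟨List.mem_cons_of_mem _ this.1, ?_⟩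
      simp only [List.tail_cons] at this ⊢
      exact List.mem_cons_of_mem _ this.2

/-- The last point of a chain without repetitions is not the beginning of an arc. -/
lemma ahd_last {L : Type} : ∀ (l : List L) (z : L) (s t : Bool) (a b : L), (l ++ [z]).Nodup →
    (t, a, b) ∈ arcs s (l ++ [z]) → a ∈ l
  | [], z, s, t, a, b, hn, h => by simp [arcs] at h
  | [x], z, s, t, a, b, hn, h => by
    simp [arcs] at h
    simp [h.2.1]
  | x :: y :: l, z, s, t, a, b, hn, h => by
    rw [List.cons_append, List.cons_append, arcs, List.mem_cons] at h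
    rcases h with h | h
    · simp only [Prod.mk.injEq] at h
      simp [h.2.1]
    · have hn' : ((y :: l) ++ [z]).Nodup := by
        rw [List.cons_append] at hn
        exact (List.nodup_cons.1 hn).2
      exact List.mem_cons_of_mem _ (ahd_last (y :: l) z (!s) t a b hn' h)

theorem ahd_thm : AHD_S := by
  intro L h m z s hn
  have key : ∃ r, h :: (m ++ [z]) = h :: m.headD z :: r := by
    cases m with
    | nil => exact ⟨[], rfl⟩
    | cons x m => exact ⟨m ++ [z], rfl⟩
  obtain ⟨r, hr⟩ := key
  have hn' := hn
  rw [List.nodup_cons] at hn'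
  refine ⟨?_, ?_⟩
  · rw [hr, arcs]
    exact List.mem_cons_self
  · intro t a b hab
    have h1 := ahd_mem _ _ _ _ _ hab
    simp only [List.tail_cons] at h1
    have h2 : a ∈ h :: m := ahd_last (h :: m) z s t a b hn hab
    refine ⟨?_, ?_, ?_⟩
    · rintro rfl
      exact hn'.1 h1.2
    · rintro rfl
      have h3 : ((h :: m) ++ [a]).Nodup := hn
      rw [List.nodup_append] at h3
      exact h3.2.2 a h2 a (by simp) rfl
    · rintro rfl
      rw [hr, arcs, List.mem_cons] at hab
      rcases hab with hab | hab
      · simp only [Prod.mk.injEq] at hab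
        exact ⟨hab.1, hab.2.2⟩
      · exfalso
        have h4 := (ahd_mem _ _ _ _ _ hab).1
        have h5 : m ++ [z] = m.headD z :: r := by
          have := List.cons.inj hr
          exact this.2
        rw [← h5] at h4
        exact hn'.1 h4

end Pool.MCR
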